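import Pool.Agent.Helper96.Dim.Pairs

/-!
# Uniqueness of the entropy maximizer for three-dimensional dimer limit shapes

`Pool.Agent.Helper96.Dim.Def` holds the definitions. The entropy enters through the three facts
which are known for it: it is continuous on the octahedron, strictly concave on the octahedron
without its edges, and zero on the edges.
-/

namespace Pool.Agent.Results.MP_835ab5_pr.UniqueMaximizer

open Pool.Agent.Helper96.Dim MeasureTheory

/-- For every region and every boundary value the entropy has at most one maximizer. -/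
theorem result :
    ∀ ent : V → ℝ, ContinuousOn ent Oct → StrictConcaveOn ℝ (Oct \ Edges) ent →
      (∀ s ∈ Edges, ent s = 0) →
    ∀ R : Set V, IsRegion R → ∀ (b : (V → ℝ) → ℝ) (g₁ g₂ : V → V),
      IsMaximizer ent R b g₁ → IsMaximizer ent R b g₂ → g₁ =ᵐ[volume] g₂ :=
  fun _ hc hs hz _ hR _ _ _ h1 h2 => maximizers_ae_eq ⟨hc, hs, hz⟩ hR h1 h2

end Pool.Agent.Results.MP_835ab5_pr.UniqueMaximizer
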